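import Pool.Agent.Y333.RP.Gap

/-!
# Which powers of an edge ideal have a linear resolution

Definitions used (files `Pool.Agent.H677R3.RegKoszul` and `RegDeg`, `Pool.Agent.Y333.RP.Gap`):
* `edgeIdeal k G` is the ideal of `k[x_0,…,x_{n-1}]` spanned by the `x_i x_j`, `i` adjacent to `j`;
* `TorNe J i e`: the Koszul homology `H_i(x_1,…,x_n; J) = Tor_i(J, k)` is nonzero in internal
  degree `i + e`;
* `IsReg J r`: `r` is the greatest `e` such that `TorNe J i e` for some `i`, i.e. `reg J = r`;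
* `GapFree G`: two edges without a common vertex are joined by an edge.

As `I(G)^q` is generated in degree `2 q`, it has a linear resolution if and only if
`IsReg ((edgeIdeal k G) ^ q) (2 * q)`.
-/

universe u

namespace Pool.Agent.Results.MP_e9bb92_al.LinearIff

open Pool.Agent.H677R3.EdgeReg Pool.Agent.H677R3.Ab Pool.Agent.Y333.RP

/-- Let `G` be a graph with an edge and `r = reg I(G)`. The power `I(G)^q`, `q ≥ 1`, has a linear
resolution if and only if `G` is gap-free and `q ≥ r - 1`. If `G` is gap-free, then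
`reg I(G)^q = max (r + q - 1) (2 q)` for every `q ≥ 1`. The complement `icoC` of the graph of the
icosahedron is gap-free with `reg I = 4`, `reg I^2 = 5`. -/
theorem result :
    (∀ (k : Type u) [Field k] (n : ℕ) (G : SimpleGraph (Fin n)), (∃ u v, G.Adj u v) →
      ∃ r : ℕ, IsReg (edgeIdeal k G) r ∧
        (∀ q : ℕ, 1 ≤ q → (IsReg ((edgeIdeal k G) ^ q) (2 * q) ↔ GapFree G ∧ r - 1 ≤ q)) ∧
        (GapFree G → ∀ q : ℕ, 1 ≤ q → IsReg ((edgeIdeal k G) ^ q) (max (r + q - 1) (2 * q)))) ∧
    GapFree icoC ∧ ∀ (k : Type u) [Field k],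
      IsReg (edgeIdeal k icoC) 4 ∧ IsReg ((edgeIdeal k icoC) ^ 2) 5 := by
  refine ⟨fun k _ n G hG => ?_, fun a b c d h1 h2 h3 h4 h5 h6 => ?_, fun k _ => ⟨reg_ico k, ?_⟩⟩
  · obtain ⟨r, σ, h1, h2, h3, h4⟩ := formula' k G hG
    have hσ : 1 ≤ σ := h2.2 (Or.inl rfl)
    have h5 := sigma_eq_one_iff k G σ h2
    refine ⟨r, h1, fun q hq => ?_, fun hg q hq => ?_⟩
    · rw [← h5]
      constructor
      · intro h
        have := h.unique (h4 q hq)
        omega
      · rintro ⟨h6, h7⟩
        have h8 := h4 q hq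
        have h9 : max (r + q - 1) (2 * q - 1 + σ) = 2 * q := by omega
        rwa [h9] at h8
    · have h6 := h5.2 hg
      have h8 := h4 q hq
      have h9 : max (r + q - 1) (2 * q - 1 + σ) = max (r + q - 1) (2 * q) := by omega
      rwa [h9] at h8
  · by_contra hcon
    push Not at hcon
    obtain ⟨h7, h8, h9, h10⟩ := hcon
    exact gapFree a b h1 c ⟨h3.symm, h5.symm, h7, h9⟩ d ⟨h2, h4.symm, h6.symm, h8, h10⟩
  · exact ico_pow k 2 (by omega)

end Pool.Agent.Results.MP_e9bb92_al.LinearIff
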